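import Pool.Agent.KS6_54.RSD.Coll

/-!
# Random seed trees and the preferential attachment seed distance: a rate close to `k^(-1/3)`

For independent uniformly random labelled trees `T_k`, `R_k` on `k` vertices the mean of the
preferential attachment seed distance `δ(T_k, R_k)` tends to `1`, and
`1 - E δ(T_k, R_k) ≤ 3 * 10^7 * log k / k^(1/3)`.

The definitions are those of the earlier answer, see `Pool/Agent/KS6_54/RSD/PA.lean` and
`Pool/Agent/KS6_54/RSD/Final.lean` (and `trees` in `Pool/Agent/KS6_54/RSD/Graph.lean`):
* `attach G i`: the graph `G` with one new vertex joined to `i`; `deg G i`: the degree;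
* `paE T m F`: the expectation of `F (PA(k + m, T))` for a seed `T` with `k` vertices;
* `paP T m A`: the probability of `PA(k + m, T) ∈ A`;
* `IsoInv A`: `A` is invariant under isomorphisms, that is, a set of unlabelled graphs;
* `tv S T m`: the total variation distance of `PA(k + m, S)` and `PA(k + m, T)` as unlabelled trees;
* `seedDist S T`: the infimum (which is the limit) of `tv S T m` over `m`;
* `trees (Fin k)`: the labelled trees on `k` vertices;
* `meanDist k`: the mean of `seedDist S T` over all pairs of labelled trees on `k` vertices.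

New idea.  Let `M T` be the size of the smaller side of the most balanced edge of the tree `T`.
Seeds with `|M S - M T| > 2 ε k` are told apart with error `4 / (k ε²)`.  The law of `M (T_k) / k`
has a density with a singularity of the type `(1/2 - x)^(-1/2)`, so that one fixed seed `S` can be
close to a random one with a probability of order `√ε`.  For two random seeds the probability of
being close is much smaller: it is at most the number of differences times the collision
probability `∑_m P(M = m)²`, which is of order `log k / k`.  This gives `ε log k`.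
-/

set_option autoImplicit false

open Filter Topology

namespace Pool.Agent.Results.MP_b12932_pr.CubeRootRate

open Pool.Agent.KS6_54.RSD.Q287.RS

/-- (1) For trees `S`, `T` on `k ≥ 2` vertices `seedDist S T` is the limit of the total variation
distances of `PA(n, S)` and `PA(n, T)`.
(2) `E δ(T_k, R_k) → 1` for independent uniformly random labelled trees on `k` vertices.
(3) `1 - E δ(T_k, R_k) ≤ 3 * 10^7 * log k / k^(1/3)` for all `k ≥ 2`.
(4) `k^α (1 - E δ(T_k, R_k)) → 0` for every `α < 1/3`. -/
theorem result :
    (∀ k : ℕ, 2 ≤ k → ∀ S T : SimpleGraph (Fin k), S.IsTree → T.IsTree →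
      Tendsto (tv S T) atTop (𝓝 (seedDist S T))) ∧
    Tendsto meanDist atTop (𝓝 1) ∧
    (∀ k : ℕ, 2 ≤ k → 1 - 3 * 10 ^ 7 * Real.log k / (k : ℝ) ^ (1 / 3 : ℝ) ≤ meanDist k) ∧
    (∀ α : ℝ, α < 1 / 3 →
      Tendsto (fun k : ℕ => (k : ℝ) ^ α * (1 - meanDist k)) atTop (𝓝 0)) := by
  refine ⟨fun k hk S T hS hT => tendsto_tv hk hS hT, tendsto_mean,
    fun k hk => Pool.Agent.KS6_54.RSD.Coll.mean_rate2 hk, fun α hα => ?_⟩
  have h1 : Tendsto (fun x : ℝ => Real.log x / x ^ (1 / 3 - α)) atTop (𝓝 0) := by
    have := isLittleO_log_rpow_atTop (r := 1 / 3 - α) (by linarith)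
    exact this.tendsto_div_nhds_zero
  have h2 : Tendsto (fun k : ℕ => 3 * 10 ^ 7 * (Real.log (k : ℝ) / (k : ℝ) ^ (1 / 3 - α))) atTop
      (𝓝 0) := by
    have := (h1.comp tendsto_natCast_atTop_atTop).const_mul (3 * 10 ^ 7 : ℝ)
    simpa using this
  refine tendsto_of_tendsto_of_tendsto_of_le_of_le' tendsto_const_nhds h2 ?_ ?_
  · filter_upwards [eventually_ge_atTop 2] with k hk
    have := mean_le_one hk
    exact mul_nonneg (Real.rpow_nonneg (Nat.cast_nonneg k) _) (by linarith)
  · filter_upwards [eventually_ge_atTop 2] with k hk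
    have h3 := Pool.Agent.KS6_54.RSD.Coll.mean_rate2 hk
    have hk0 : (0:ℝ) < k := by positivity
    have hp : 0 < (k:ℝ) ^ α := Real.rpow_pos_of_pos hk0 _
    have h4 : (k:ℝ) ^ α * (1 - meanDist k) ≤
        (k:ℝ) ^ α * (3 * 10 ^ 7 * Real.log k / (k : ℝ) ^ (1 / 3 : ℝ)) :=
      mul_le_mul_of_nonneg_left (by linarith) hp.le
    refine h4.trans (le_of_eq ?_)
    rw [Real.rpow_sub hk0]
    have hc : 0 < (k:ℝ) ^ (1 / 3 : ℝ) := Real.rpow_pos_of_pos hk0 _
    field_simp

end Pool.Agent.Results.MP_b12932_pr.CubeRootRate
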